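import Pool.Agent.H362.SF.Split

/-!
# Splitting automorphisms of free Burnside groups of odd composite exponent are inner (helper362)
-/

set_option autoImplicit false

namespace Pool.Agent.Results.MP_7246d9_al.SplittingInner

open Pool.Agent.H362.SF

/-- the free Burnside group with the basis `X` and the exponent `n`: the quotient of the free group
by the normal closure of all `n`-th powers -/
abbrev FreeBurnside (X : Type) (n : ℕ) : Type :=
  FreeGroup X ⧸ Subgroup.normalClosure (Set.range fun z : FreeGroup X => z ^ n)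

/-- the two conditions: `φ ^ n = 1` and `b^φ b^(φ^2) ⋯ b^(φ^n) = 1` for all `b` -/
def Splitting {G : Type} [Group G] (n : ℕ) (φ : MulAut G) : Prop :=
  φ ^ n = 1 ∧ ∀ b : G, ((List.range n).map fun i => (φ ^ (i + 1)) b).prod = 1

/-- there is `N` such that for every odd composite `n ≥ N` and every free Burnside group `B(X, n)`
of rank at least two (finite or infinite) every automorphism `φ` with `φ ^ n = 1` and
`b^φ b^(φ^2) ⋯ b^(φ^n) = 1` for all `b` is inner -/
theorem result : ∃ N : ℕ, ∀ n : ℕ, Odd n → ¬ n.Prime → N ≤ n → ∀ (X : Type) [Nontrivial X]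
    (φ : MulAut (FreeBurnside X n)), Splitting n φ →
      ∃ g : FreeBurnside X n, ∀ b : FreeBurnside X n, φ b = g⁻¹ * b * g := by
  obtain ⟨w, n0, -, hw1, hn0, hL⟩ := limThm
  refine ⟨n0 * n0, ?_⟩
  intro n hodd hnp hn X hX φ hφ
  obtain ⟨h1, h2⟩ := hφ
  have hnn : n0 ≤ n := (Nat.le_mul_self n0).trans hn
  have hpos : 0 < n := by omega
  obtain ⟨L, iL, β, rk, hβ, hker, hRG, ⟨a0, b0, hab⟩, hrk, hrig, hZ⟩ := hL n hodd hnn X
    (exists_pair_ne X)
  -- the exponent of the quotient
  have hm0 : 0 < n.minFac := Nat.minFac_pos n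
  have hdvd : n / n.minFac ∣ n := Nat.div_dvd_of_dvd (Nat.minFac_dvd n)
  have hmul : n.minFac * (n / n.minFac) = n := Nat.mul_div_cancel' (Nat.minFac_dvd n)
  have hsq : n.minFac ^ 2 ≤ n := Nat.minFac_sq_le_self hpos hnp
  have hle : n.minFac ≤ n / n.minFac := by
    rw [Nat.le_div_iff_mul_le hm0, ← pow_two]
    exact hsq
  have he0 : n0 ≤ n / n.minFac := by
    by_contra hlt
    push Not at hlt
    have h3 : n.minFac * (n / n.minFac) < n0 * n0 :=
      Nat.mul_lt_mul_of_le_of_lt (hle.trans hlt.le) hlt (by omega)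
    omega
  have hmin2 : 2 ≤ n.minFac := by
    have : n ≠ 1 := by
      rintro rfl
      have h4 : n0 * 2 ≤ n0 * n0 := Nat.mul_le_mul_left _ hn0
      omega
    exact (Nat.minFac_prime this).two_le
  have heN : n / n.minFac < n := Nat.div_lt_self hpos hmin2
  -- the isomorphism
  have hverb : Subgroup.normalClosure (Set.range fun z : FreeGroup X => z ^ n) = β.ker := by
    ext g
    exact (hker g).symm
  let e : FreeBurnside X n ≃* L := (QuotientGroup.quotientMulEquivOfEq hverb).trans
    (QuotientGroup.quotientKerEquivOfSurjective β hβ)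
  have hc : ∀ (k : ℕ) (x : L), ((MulAut.congr e φ) ^ k) x = e ((φ ^ k) (e.symm x)) := by
    intro k x
    rw [← map_pow]
    rfl
  obtain ⟨g, hg⟩ := split_rigid hw1 hpos hRG hrk hrig hab hZ hdvd he0 heN (MulAut.congr e φ)
    (by rw [← map_pow, h1, map_one]) (by
      intro b
      have h3 := congrArg e (h2 (e.symm b))
      rw [map_list_prod, List.map_map, map_one] at h3
      rw [← h3]
      congr 1
      apply List.map_congr_left
      intro i _
      exact hc (i + 1) b)
  refine ⟨e.symm g, fun b => ?_⟩
  have h3 := hg (e b)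
  have h4 : (MulAut.congr e φ) (e b) = e (φ b) := by
    have := hc 1 (e b)
    rw [pow_one, pow_one, e.symm_apply_apply] at this
    exact this
  rw [h4] at h3
  apply e.injective
  rw [h3, map_mul, map_mul, map_inv, e.apply_symm_apply]

end Pool.Agent.Results.MP_7246d9_al.SplittingInner
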